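import Pool.Agent.Helper58P.Orbit

/-!
# If `P = PSPACE` then Cantor-Bernstein works in polynomial time for length-nondecreasing reductions
-/

set_option autoImplicit false

namespace Pool.Agent.NPC.PIso.H58

/-- `P = PSPACE` (`P ⊆ PSPACE` is `inPSPACE_of_inP`) -/
def Collapse : Prop := ∀ L : Set (List Bool), InPSPACE L → InP L

section CB

variable (rf rg : List Bool → List Bool)

/-- the predecessor of a point in the graph of `f` and `g`, whose partial inverses are given -/
def beta : List Bool ⊕ List Bool → Option (List Bool ⊕ List Bool)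
  | Sum.inl x => match rg x with
    | [] => none
    | _ :: y => some (Sum.inr y)
  | Sum.inr y => match rf y with
    | [] => none
    | _ :: x => some (Sum.inl x)

/-- the second side -/
def isR : List Bool ⊕ List Bool → Bool
  | Sum.inl _ => false
  | Sum.inr _ => true

/-- the length of a point -/
def len : List Bool ⊕ List Bool → ℕ
  | Sum.inl x => x.length
  | Sum.inr x => x.length

variable {rf rg}

theorem poly_beta (hf : Poly rf) (hg : Poly rg) : Poly (beta rf rg) := by
  have h1 : Poly (fun p : (List Bool ⊕ List Bool) × List Bool =>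
      lcase (rg p.2) (none : Option (List Bool ⊕ List Bool)) (fun _ y => some (Sum.inr y))) :=
    poly_lcase (hg.comp (Poly.snd Poly.id)) (Poly.const none)
      (Poly.some (Poly.inr (Poly.snd (Poly.snd Poly.id))))
  have h2 : Poly (fun p : (List Bool ⊕ List Bool) × List Bool =>
      lcase (rf p.2) (none : Option (List Bool ⊕ List Bool)) (fun _ y => some (Sum.inl y))) :=
    poly_lcase (hf.comp (Poly.snd Poly.id)) (Poly.const none)
      (Poly.some (Poly.inl (Poly.snd (Poly.snd Poly.id))))
  refine (Poly.sumCases (o := fun s : List Bool ⊕ List Bool => s)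
    (g := fun _ x => lcase (rg x) none (fun _ y => some (Sum.inr y)))
    (h := fun _ x => lcase (rf x) none (fun _ y => some (Sum.inl y))) Poly.id h1 h2).congr ?_
  rintro (x | x)
  · simp only [beta]
    cases rg x <;> rfl
  · simp only [beta]
    cases rf x <;> rfl

theorem poly_isR : Poly isR :=
  (Poly.sumCases (o := fun s : List Bool ⊕ List Bool => s) (g := fun _ _ => false)
    (h := fun _ _ => true) Poly.id (Poly.const false) (Poly.const true)).congr fun s => by
      cases s <;> rfl

variable {f g : List Bool → List Bool}

/-- the data of the theorem: polynomial-time injections with polynomial-time inverses -/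
structure Dat (f g rf rg : List Bool → List Bool) : Prop where
  pf : Poly f
  pg : Poly g
  prf : Poly rf
  prg : Poly rg
  rff : ∀ x, rf (f x) = true :: x
  rgg : ∀ x, rg (g x) = true :: x
  rfn : ∀ y, y ∉ Set.range f → rf y = []
  rgn : ∀ y, y ∉ Set.range g → rg y = []
  lf : LengthNondecreasing f
  lg : LengthNondecreasing g

variable (D : Dat f g rf rg)

include D in
theorem rf_cases (y : List Bool) : (rf y = [] ∧ y ∉ Set.range f) ∨ ∃ x, f x = y ∧ rf y = true :: x := by
  by_cases h : y ∈ Set.range f
  · obtain ⟨x, rfl⟩ := h
    exact Or.inr ⟨x, rfl, D.rff x⟩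
  · exact Or.inl ⟨D.rfn y h, h⟩

include D in
theorem rg_cases (y : List Bool) : (rg y = [] ∧ y ∉ Set.range g) ∨ ∃ x, g x = y ∧ rg y = true :: x := by
  by_cases h : y ∈ Set.range g
  · obtain ⟨x, rfl⟩ := h
    exact Or.inr ⟨x, rfl, D.rgg x⟩
  · exact Or.inl ⟨D.rgn y h, h⟩

include D in
theorem beta_f (x : List Bool) : beta rf rg (Sum.inr (f x)) = some (Sum.inl x) := by
  simp [beta, D.rff]

include D in
theorem beta_g (y : List Bool) : beta rf rg (Sum.inl (g y)) = some (Sum.inr y) := by
  simp [beta, D.rgg]

include D in
theorem beta_spec {s t : List Bool ⊕ List Bool} (h : beta rf rg s = some t) :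
    (∃ x, t = Sum.inl x ∧ s = Sum.inr (f x)) ∨ (∃ y, t = Sum.inr y ∧ s = Sum.inl (g y)) := by
  rcases s with x | y
  · rcases rg_cases D x with ⟨h1, _⟩ | ⟨z, h1, h2⟩
    · simp [beta, h1] at h
    · right
      simp only [beta, h2, Option.some.injEq] at h
      exact ⟨z, h.symm, by rw [h1]⟩
  · rcases rf_cases D y with ⟨h1, _⟩ | ⟨z, h1, h2⟩
    · simp [beta, h1] at h
    · left
      simp only [beta, h2, Option.some.injEq] at h
      exact ⟨z, h.symm, by rw [h1]⟩

include D in
theorem beta_inj (s s' t : List Bool ⊕ List Bool) (h : beta rf rg s = some t)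
    (h' : beta rf rg s' = some t) : s = s' := by
  rcases beta_spec D h with ⟨x, rfl, rfl⟩ | ⟨x, rfl, rfl⟩
  · rcases beta_spec D h' with ⟨y, h1, rfl⟩ | ⟨y, h1, rfl⟩
    · cases h1; rfl
    · cases h1
  · rcases beta_spec D h' with ⟨y, h1, rfl⟩ | ⟨y, h1, rfl⟩
    · cases h1
    · cases h1; rfl

include D in
theorem len_beta {s t : List Bool ⊕ List Bool} (h : beta rf rg s = some t) : len t ≤ len s := by
  rcases beta_spec D h with ⟨x, rfl, rfl⟩ | ⟨x, rfl, rfl⟩
  · exact D.lf x
  · exact D.lg x

include D in
theorem len_gam (s : List Bool ⊕ List Bool) : len (gam (beta rf rg) s) ≤ len s := by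
  cases h : beta rf rg s with
  | none => simp [gam, h]
  | some t => rw [gam_of h]; exact len_beta D h

include D in
theorem len_iter (s : List Bool ⊕ List Bool) (n : ℕ) : len ((gam (beta rf rg))^[n] s) ≤ len s := by
  induction n with
  | zero => exact le_rfl
  | succ n ih =>
    rw [Function.iterate_succ_apply']
    exact (len_gam D _).trans ih

theorem sz_le_len (s : List Bool ⊕ List Bool) : sz s ≤ 4 * len s + 5 := by
  rcases s with x | x
  · have := sz_listBool_le x
    simp only [sz_inl, len]
    omega
  · have := sz_listBool_le x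
    simp only [sz_inr, len]
    omega

include D in
/-- the test whether the backward chain of the point ends on the second side is in `P` -/
theorem exists_test (hC : Collapse) (init : List Bool → List Bool ⊕ List Bool) (hi : Poly init)
    (hl : ∀ x, len (init x) = x.length) :
    ∃ d : List Bool → Bool, Poly d ∧ ∀ x, d x = true ↔ End (beta rf rg) isR (init x) := by
  refine test_of_inP (hC _ (inPSPACE_end (poly_beta D.prf D.prg) poly_isR (beta_inj D) init hi
    (4 * Polynomial.X + 5) ?_))
  intro x n
  have h1 := sz_le_len ((gam (beta rf rg))^[n] (init x))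
  have h2 := len_iter D (init x) n
  have h3 := hl x
  simp only [Polynomial.eval_add, Polynomial.eval_mul, Polynomial.eval_ofNat, Polynomial.eval_X]
  omega

include D in
theorem cb_of_tests {dA dB : List Bool → Bool} (pdA : Poly dA) (pdB : Poly dB)
    (hdA : ∀ x, dA x = true ↔ End (beta rf rg) isR (Sum.inl x))
    (hdB : ∀ x, dB x = true ↔ End (beta rf rg) isR (Sum.inr x))
    (A B : Set (List Bool)) (hA : ∀ x, x ∈ A ↔ f x ∈ B)
    (hB : ∀ x, x ∈ B ↔ g x ∈ A) : PIsomorphic A B := by
  have e1 : ∀ x, dB (f x) = dA x := by
    intro x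
    rw [Bool.eq_iff_iff, hdA, hdB]
    exact end_step (beta_f D x)
  have e2 : ∀ y, dA (g y) = dB y := by
    intro y
    rw [Bool.eq_iff_iff, hdA, hdB]
    exact end_step (beta_g D y)
  -- a point of the first side whose chain ends on the second side has a predecessor
  have c1 : ∀ x, dA x = true → ∃ y, g y = x := by
    intro x hx
    rcases rg_cases D x with ⟨h1, _⟩ | ⟨z, h1, _⟩
    · exfalso
      rw [hdA, end_stop (by simp [beta, h1])] at hx
      simp [isR] at hx
    · exact ⟨z, h1⟩
  have c2 : ∀ y, dB y = false → ∃ x, f x = y := by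
    intro y hy
    rcases rf_cases D y with ⟨h1, _⟩ | ⟨z, h1, _⟩
    · exfalso
      have : dB y = true := by
        rw [hdB, end_stop (by simp [beta, h1])]
        rfl
      rw [this] at hy
      exact absurd hy (by simp)
    · exact ⟨z, h1⟩
  let h : List Bool → List Bool := fun x => if dA x = true then (rg x).tail else f x
  let h' : List Bool → List Bool := fun y => if dB y = true then g y else (rf y).tail
  have v1 : ∀ y, dB y = true → h (g y) = y := by
    intro y hy
    have : dA (g y) = true := by rw [e2]; exact hy
    simp [h, this, D.rgg]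
  have v2 : ∀ x, dA x = false → h x = f x := by
    intro x hx
    simp [h, hx]
  have w1 : ∀ y, dB y = true → h' y = g y := by
    intro y hy
    simp [h', hy]
  have w2 : ∀ x, dA x = false → h' (f x) = x := by
    intro x hx
    have : dB (f x) = false := by rw [e1]; exact hx
    simp [h', this, D.rff]
  refine ⟨h, h', poly_iff.1 ?_, poly_iff.1 ?_, fun x => ?_, fun y => ?_, fun x => ?_⟩
  · exact Poly.ite (Poly.decide_bool pdA) (Poly.tail D.prg) D.pf
  · exact Poly.ite (Poly.decide_bool pdB) D.pg (Poly.tail D.prf)
  · cases hx : dA x with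
    | false => rw [v2 x hx, w2 x hx]
    | true =>
      obtain ⟨y, rfl⟩ := c1 x hx
      have hy : dB y = true := by rw [← e2]; exact hx
      rw [v1 y hy, w1 y hy]
  · cases hy : dB y with
    | true => rw [w1 y hy, v1 y hy]
    | false =>
      obtain ⟨x, rfl⟩ := c2 y hy
      have hx : dA x = false := by rw [← e1]; exact hy
      rw [w2 x hx, v2 x hx]
  · cases hx : dA x with
    | false => rw [v2 x hx]; exact hA x
    | true =>
      obtain ⟨y, rfl⟩ := c1 x hx
      have hy : dB y = true := by rw [← e2]; exact hx
      rw [v1 y hy]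
      exact (hB y).symm

include D in
theorem cb (hC : Collapse) (A B : Set (List Bool)) (hA : ∀ x, x ∈ A ↔ f x ∈ B)
    (hB : ∀ x, x ∈ B ↔ g x ∈ A) : PIsomorphic A B := by
  obtain ⟨dA, pdA, hdA⟩ := exists_test D hC Sum.inl (Poly.inl Poly.id) fun _ => rfl
  obtain ⟨dB, pdB, hdB⟩ := exists_test D hC Sum.inr (Poly.inr Poly.id) fun _ => rfl
  exact cb_of_tests D pdA pdB hdA hdB A B hA hB

/-- the position of a point in the order of the lengths, the first side first or second -/
def mu (a b : ℕ) : List Bool ⊕ List Bool → ℕ
  | Sum.inl x => 2 * x.length + a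
  | Sum.inr x => 2 * x.length + b

theorem poly_len : UPoly len := by
  refine (Poly.sumCases (o := fun s : List Bool ⊕ List Bool => s)
    (g := fun _ x => List.replicate x.length ()) (h := fun _ x => List.replicate x.length ())
    Poly.id (UPoly.length (Poly.snd Poly.id)) (UPoly.length (Poly.snd Poly.id))).congr fun s => ?_
  cases s <;> rfl

include D in
/-- if every step back goes down in the order then the chains can be followed in polynomial time -/
theorem exists_test' (a b : ℕ) (ha : a ≤ 1) (hb : b ≤ 1)
    (hmu : ∀ s t, beta rf rg s = some t → mu a b t < mu a b s)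
    (init : List Bool → List Bool ⊕ List Bool) (hi : Poly init) :
    ∃ d : List Bool → Bool, Poly d ∧ ∀ x, d x = true ↔ End (beta rf rg) isR (init x) := by
  classical
  let K : List Bool → ℕ := fun x => 2 * len (init x) + 2
  let F : List Bool → List Bool ⊕ List Bool := fun x => (gam (beta rf rg))^[K x] (init x)
  have hK : UPoly K :=
    UPoly.add (UPoly.mul (UPoly.const 2) (UPoly.comp poly_len hi)) (UPoly.const 2)
  have pβ : Poly (beta rf rg) := poly_beta D.prf D.prg
  have hF : Poly F := by
    obtain ⟨p, hp⟩ := hi.sz_le
    refine (Poly.iterLen (l := fun x => List.replicate (K x) ()) (s := init)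
      (F := fun _ s => gam (beta rf rg) s) hK hi ((poly_gam pβ).comp (Poly.snd Poly.id))
      (4 * p + 5) ?_).congr fun x => ?_
    · intro x k _
      have h1 := sz_le_len ((gam (beta rf rg))^[k] (init x))
      have h2 := len_iter D (init x) k
      have h3 : len (init x) ≤ sz (init x) := by
        cases init x with
        | inl y => have := sz_listBool_ge y; simp only [len, sz_inl]; omega
        | inr y => have := sz_listBool_ge y; simp only [len, sz_inr]; omega
      have h4 := hp x
      simp only [Polynomial.eval_add, Polynomial.eval_mul, Polynomial.eval_ofNat]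
      change sz ((gam (beta rf rg))^[k] (init x)) ≤ _
      omega
    · simp only [List.length_replicate]
      rfl
  refine ⟨fun x => (beta rf rg (F x)).isNone && isR (F x), Poly.and (poly_isNone (pβ.comp hF))
    (poly_isR.comp hF), fun x => ?_⟩
  -- the first point without predecessor
  have hex : ∃ n, beta rf rg ((gam (beta rf rg))^[n] (init x)) = none := by
    by_contra hcon
    push Not at hcon
    have : ∀ n, mu a b ((gam (beta rf rg))^[n] (init x)) + n ≤ mu a b (init x) := by
      intro n
      induction n with
      | zero => simp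
      | succ n ih =>
        obtain ⟨t, ht⟩ := Option.ne_none_iff_exists'.1 (hcon n)
        rw [Function.iterate_succ_apply', gam_of ht]
        have := hmu _ _ ht
        omega
    have := this (mu a b (init x) + 1)
    omega
  have hfix : ∀ s, beta rf rg s = none → ∀ k, (gam (beta rf rg))^[k] s = s := by
    intro s hs k
    induction k with
    | zero => rfl
    | succ k ih => rw [Function.iterate_succ_apply', ih]; simp [gam, hs]
  obtain ⟨n, hn, hmin⟩ : ∃ n, beta rf rg ((gam (beta rf rg))^[n] (init x)) = none ∧
      ∀ i < n, beta rf rg ((gam (beta rf rg))^[i] (init x)) ≠ none :=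
    ⟨Nat.find hex, Nat.find_spec hex, fun i hi => Nat.find_min hex hi⟩
  have hnK : n ≤ K x := by
    have key : ∀ m ≤ n, mu a b ((gam (beta rf rg))^[m] (init x)) + m ≤ mu a b (init x) := by
      intro m
      induction m with
      | zero => simp
      | succ m ih =>
        intro hm
        obtain ⟨t, ht⟩ := Option.ne_none_iff_exists'.1 (hmin m (by omega))
        rw [Function.iterate_succ_apply', gam_of ht]
        have := hmu _ _ ht
        have := ih (by omega)
        omega
    have h1 := key n le_rfl
    have h2 : mu a b (init x) ≤ 2 * len (init x) + 1 := by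
      cases init x with
      | inl y => simp only [mu, len]; omega
      | inr y => simp only [mu, len]; omega
    have h3 : K x = 2 * len (init x) + 2 := rfl
    omega
  have hFx : F x = (gam (beta rf rg))^[n] (init x) := by
    change (gam (beta rf rg))^[K x] (init x) = _
    rw [show K x = (K x - n) + n by omega, Function.iterate_add_apply, hfix _ hn]
  change ((beta rf rg (F x)).isNone && isR (F x)) = true ↔ _
  rw [hFx, end_iter n hmin, end_stop hn]
  simp [hn]

include D in
/-- **Unconditional case.** One of the two reductions is length increasing. -/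
theorem cb_increasing (h : (∀ x, x.length < (f x).length) ∨ (∀ x, x.length < (g x).length))
    (A B : Set (List Bool)) (hA : ∀ x, x ∈ A ↔ f x ∈ B)
    (hB : ∀ x, x ∈ B ↔ g x ∈ A) : PIsomorphic A B := by
  obtain ⟨a, b, ha, hb, hmu⟩ : ∃ a b : ℕ, a ≤ 1 ∧ b ≤ 1 ∧
      ∀ s t, beta rf rg s = some t → mu a b t < mu a b s := by
    rcases h with h | h
    · refine ⟨1, 0, le_rfl, by omega, fun s t hst => ?_⟩
      rcases beta_spec D hst with ⟨x, rfl, rfl⟩ | ⟨x, rfl, rfl⟩
      · have := h x
        simp only [mu]
        omega
      · have := D.lg x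
        simp only [mu]
        omega
    · refine ⟨0, 1, by omega, le_rfl, fun s t hst => ?_⟩
      rcases beta_spec D hst with ⟨x, rfl, rfl⟩ | ⟨x, rfl, rfl⟩
      · have := D.lf x
        simp only [mu]
        omega
      · have := h x
        simp only [mu]
        omega
  obtain ⟨dA, pdA, hdA⟩ := exists_test' D a b ha hb hmu Sum.inl (Poly.inl Poly.id)
  obtain ⟨dB, pdB, hdB⟩ := exists_test' D a b ha hb hmu Sum.inr (Poly.inr Poly.id)
  exact cb_of_tests D pdA pdB hdA hdB A B hA hB

end CB

end Pool.Agent.NPC.PIso.H58
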