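import Pool.Agent.Helper58P.Conv

/-!
# If `P = PSPACE` then injective length-nondecreasing polynomial-time functions are `p`-invertible
-/

set_option autoImplicit false

namespace Pool.Agent.NPC.PIso.H58

/-- an enumeration of all strings -/
def enum (c : ℕ) : List Bool := c.bits.reverse.tail.reverse

/-- the number of a string -/
def num (x : List Bool) : ℕ := valB (x ++ [true])

theorem enum_num (x : List Bool) : enum (num x) = x := by
  unfold enum num
  rw [bits_valB_append_true]
  simp

theorem num_lt (x : List Bool) : num x < 2 ^ (x.length + 1) := by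
  have := valB_lt (x ++ [true])
  rwa [List.length_append, List.length_singleton] at this

theorem poly_enum : Poly enum :=
  Poly.reverse (Poly.tail (Poly.reverse (Poly.natBits Poly.id)))

section Query

variable (f : List Bool → List Bool)

/-- the number `c` is that of a preimage of `y` whose `i`-th letter is `b` -/
def hit (q : (List Bool × ℕ × Bool) × ℕ) : Bool :=
  decide (f (enum q.2) = q.1.1) && decide ((enum q.2)[q.1.2.1]? = some q.1.2.2)

/-- the question: does `y` have a preimage whose `i`-th letter is `b`? -/
def Ask (q : List Bool × ℕ × Bool) : Prop := ∃ x, f x = q.1 ∧ x[q.2.1]? = some q.2.2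

/-- decoding of the question -/
def decq (w : List Bool) : List Bool × ℕ × Bool :=
  (unbits (List Bool × ℕ × Bool) w).getD ([], 0, false)

variable {f}

theorem poly_hit (hf : Poly f) : Poly (hit f) := by
  have he : Poly (fun q : (List Bool × ℕ × Bool) × ℕ => enum q.2) := poly_enum.comp (Poly.snd Poly.id)
  exact Poly.and (Poly.decide_eq (hf.comp he) (Poly.fst (Poly.fst Poly.id)))
    (Poly.decide_eq (Poly.getElem? he (Poly.fst (Poly.snd (Poly.fst Poly.id))))
      (Poly.some (Poly.snd (Poly.snd (Poly.fst Poly.id)))))

theorem poly_decq : Poly decq :=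
  (Poly.optCases (h := fun _ q => q) (poly_unbits (α := List Bool × ℕ × Bool))
    (Poly.const ([], 0, false)) (Poly.snd Poly.id)).congr fun w => by
      unfold decq
      cases unbits (List Bool × ℕ × Bool) w <;> rfl

theorem decq_bits (q : List Bool × ℕ × Bool) : decq (bits q) = q := by
  unfold decq
  rw [unbits_bits]
  rfl

theorem sz_nat_two_pow {c n : ℕ} (h : c ≤ 2 ^ n) : sz c ≤ 4 * (n + 1) + 1 := by
  have h1 := sz_nat_le c
  have h2 : c.size ≤ n + 1 := Nat.size_le.2 (lt_of_le_of_lt h (Nat.pow_lt_pow_right (by norm_num) (by omega)))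
  omega

theorem inPSPACE_ask (hf : Poly f) (hlen : LengthNondecreasing f) :
    InPSPACE {w | Ask f (decq w)} := by
  obtain ⟨p, hp⟩ := poly_decq.sz_le
  refine inPSPACE_iter (α := (List Bool × ℕ × Bool) × ℕ) (G := fun q => (q.1, q.2 + 1))
    (stop := fun q => hit f q || decide (2 ^ (q.1.1.length + 1) ≤ q.2)) (acc := hit f)
    (init := fun w => (decq w, 0)) ?_ ?_ (poly_hit hf) ?_
    (5 * (p.comp (4 * Polynomial.X + 1)) + 20) ?_
  · exact Poly.pair (Poly.fst Poly.id) (Poly.succ (Poly.snd Poly.id))
  · refine Poly.or (poly_hit hf) (Poly.decide_le (poly_two_pow ?_) (Poly.snd Poly.id))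
    exact UPoly.add (UPoly.length (Poly.fst (Poly.fst Poly.id))) (UPoly.const 1)
  · exact Poly.pair poly_decq (Poly.const 0)
  · intro w
    have hit_iter : ∀ n, (fun q : (List Bool × ℕ × Bool) × ℕ => (q.1, q.2 + 1))^[n] (decq w, 0) =
        (decq w, n) := by
      intro n
      induction n with
      | zero => rfl
      | succ n ih => rw [Function.iterate_succ_apply', ih]
    let st : ℕ → Prop := fun n => (hit f (decq w, n) ||
      decide (2 ^ ((decq w).1.length + 1) ≤ n)) = true
    have hex : ∃ n, st n := ⟨2 ^ ((decq w).1.length + 1), by simp [st]⟩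
    obtain ⟨n, h1, h2, hmin⟩ : ∃ n, st n ∧ (∀ i < n, ¬ st i) ∧ ∀ m, st m → n ≤ m := by
      classical
      exact ⟨Nat.find hex, Nat.find_spec hex, fun i hi => Nat.find_min hex hi,
        fun m hm => Nat.find_min' hex hm⟩
    have hle : n ≤ 2 ^ ((decq w).1.length + 1) := hmin _ (by simp [st])
    refine ⟨n, ?_, fun i hi => ?_, fun i hi => ?_, ?_⟩
    · simp only [hit_iter]
      exact h1
    · have := h2 i hi
      simp only [hit_iter]
      simpa [st] using this
    · rw [hit_iter, sz_pair]
      have h3 : sz i ≤ 4 * ((decq w).1.length + 1 + 1) + 1 := sz_nat_two_pow (hi.trans hle)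
      have h4 : sz (decq w) ≤ p.eval (sz w) := hp w
      have h5 : sz (decq w).1 ≤ sz (decq w) := by
        conv_rhs => rw [← Prod.mk.eta (p := decq w), sz_pair]
        omega
      have h6 := sz_listBool_ge (decq w).1
      have h7 := eval_mono p (sz_listBool_le w)
      simp only [Polynomial.eval_add, Polynomial.eval_mul, Polynomial.eval_ofNat,
        Polynomial.eval_comp, Polynomial.eval_X, Polynomial.eval_one]
      omega
    · simp only [hit_iter]
      constructor
      · rintro ⟨x, hx1, hx2⟩
        have hx : hit f (decq w, num x) = true := by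
          simp [hit, enum_num, hx1, hx2]
        have h8 : n ≤ num x := hmin _ (by simp [st, hx])
        have h9 : num x < 2 ^ ((decq w).1.length + 1) := by
          refine lt_of_lt_of_le (num_lt x) (Nat.pow_le_pow_right (by norm_num) ?_)
          have := hlen x
          rw [hx1] at this
          omega
        have h10 : ¬ (2 ^ ((decq w).1.length + 1) ≤ n) := by omega
        have h11 := h1
        simp only [st, Bool.or_eq_true, decide_eq_true_eq] at h11
        exact h11.resolve_right h10
      · intro h
        simp only [hit, Bool.and_eq_true, decide_eq_true_eq] at h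
        exact ⟨enum n, h.1, h.2⟩

end Query

theorem flatMap_range (x : List Bool) : ∀ n, x.length ≤ n →
    (List.range n).flatMap (fun i => (x[i]?).toList) = x := by
  have key : ∀ n, (List.range n).flatMap (fun i => (x[i]?).toList) = x.take n := by
    intro n
    induction n with
    | zero => simp
    | succ n ih =>
      rw [List.range_succ, List.flatMap_append, ih, List.take_add_one]
      simp
  intro n hn
  rw [key, List.take_of_length_le hn]

/-- **Inverses.** If `P = PSPACE` then every injective length-nondecreasing polynomial-time function is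
`p`-invertible. -/
theorem pinvertible (hC : Collapse) {f : List Bool → List Bool} (hf : PolyTime f)
    (hinj : Function.Injective f) (hlen : LengthNondecreasing f) : PInvertible f := by
  have pf : Poly f := poly_iff.2 hf
  obtain ⟨d, pd, hd⟩ := test_of_inP (hC _ (inPSPACE_ask pf hlen))
  have hd' : ∀ q, d (bits q) = true ↔ Ask f q := by
    intro q
    rw [hd]
    change Ask f (decq (bits q)) ↔ _
    rw [decq_bits]
  let X : List Bool → List Bool := fun y => (List.range y.length).flatMap fun i =>
    if d (bits (y, i, true)) = true then [true] else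
      if d (bits (y, i, false)) = true then [false] else []
  have pX : Poly X := by
    have pq : ∀ b : Bool, Poly (fun p : List Bool × ℕ => decide (d (bits (p.1, p.2, b)) = true)) := by
      intro b
      refine Poly.decide_bool (pd.comp (poly_bits.comp ?_))
      exact Poly.pair (Poly.fst Poly.id) (Poly.pair (Poly.snd Poly.id) (Poly.const b))
    refine Poly.flatMap (F := fun y i => if d (bits (y, i, true)) = true then [true] else
      if d (bits (y, i, false)) = true then [false] else []) (UPoly.range (UPoly.length Poly.id)) ?_
    exact Poly.ite (pq true) (Poly.const [true]) (Poly.ite (pq false) (Poly.const [false])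
      (Poly.const []))
  have hX : ∀ x, X (f x) = x := by
    intro x
    have ha : ∀ (i : ℕ) (b : Bool), Ask f (f x, i, b) ↔ x[i]? = some b := by
      intro i b
      constructor
      · rintro ⟨z, h1, h2⟩
        rw [hinj h1] at h2
        exact h2
      · exact fun h => ⟨x, rfl, h⟩
    have e : (fun i : ℕ => if d (bits (f x, i, true)) = true then [true] else
        if d (bits (f x, i, false)) = true then [false] else []) =
        fun i : ℕ => (x[i]?).toList := by
      funext i
      simp only [hd', ha]
      rcases h : x[i]? with _ | b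
      · simp
      · cases b <;> simp
    change (List.range (f x).length).flatMap _ = x
    rw [e]
    exact flatMap_range x _ (hlen x)
  refine ⟨hinj, fun y => if f (X y) = y then true :: X y else [], poly_iff.1 ?_, fun x => ?_,
    fun y hy => ?_⟩
  · exact Poly.ite (Poly.decide_eq (pf.comp pX) Poly.id) (Poly.cons (Poly.const true) pX)
      (Poly.const [])
  · simp only [hX, if_true]
  · have : f (X y) ≠ y := fun h => hy ⟨_, h⟩
    simp [this]

/-- The statement in question without the hypothesis of `p`-invertibility. -/
def Q1w : Prop := ∀ A B : Set (List Bool),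
  (∃ f, IsReduction A B f ∧ Function.Injective f ∧ LengthNondecreasing f) →
  (∃ g, IsReduction B A g ∧ Function.Injective g ∧ LengthNondecreasing g) →
  PIsomorphic A B

theorem q1w_of_collapse (hC : Collapse) : Q1w := by
  rintro A B ⟨f, ⟨hf, hA⟩, fi, fl⟩ ⟨g, ⟨hg, hB⟩, gi, gl⟩
  obtain ⟨_, rf, prf, h1, h2⟩ := pinvertible hC hf fi fl
  obtain ⟨_, rg, prg, h3, h4⟩ := pinvertible hC hg gi gl
  exact cb ⟨poly_iff.2 hf, poly_iff.2 hg, poly_iff.2 prf, poly_iff.2 prg, h1, h3, h2, h4, fl, gl⟩ hC
    A B hA hB

theorem q1_of_q1w (h : Q1w) : Q1 := by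
  rintro A B ⟨f, hf, fi, fl, _⟩ ⟨g, hg, gi, gl, _⟩
  exact h A B ⟨f, hf, fi, fl⟩ ⟨g, hg, gi, gl⟩

theorem collapse_of_q1 (h : Q1) : Collapse := fun L hL => pspace_of_Q1 h L hL

end Pool.Agent.NPC.PIso.H58
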