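import Pool.Agent.H550R2.Iso.Iter

/-!
# Backward chains of a polynomial-time partial injection in polynomial space
-/

set_option autoImplicit false

namespace Pool.Agent.NPC.PIso.H58


/-- Every language in `P` has a polynomial-time test. -/
theorem test_of_inP {L : Set (List Bool)} (h : InP L) :
    ∃ d : List Bool → Bool, Poly d ∧ ∀ x, d x = true ↔ x ∈ L := by
  obtain ⟨V, hV, hL⟩ := h
  refine ⟨fun x => decide (V x = [true]), Poly.decide_eq (poly_iff.2 hV) (Poly.const [true]),
    fun x => ?_⟩
  rw [decide_eq_true_iff, hL x]

theorem finite_sz {α : Type} [TEnc α] (Q : ℕ) : {a : α | sz a ≤ Q}.Finite := by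
  have h1 : {l : List Bool | l.length ≤ Q}.Finite := List.finite_length_le Bool Q
  refine Set.Finite.of_finite_image (f := (bits : α → List Bool)) (h1.subset ?_)
    (bits_injective.injOn)
  rintro l ⟨a, ha, rfl⟩
  simpa [bits_length] using ha

section Orbit

variable {α : Type} (β : α → Option α) (side : α → Bool)

/-- the chain `s, β s, β (β s), ...` ends at a point where `side` is true -/
inductive End : α → Prop
  | stop (s : α) : β s = none → side s = true → End s
  | step (s s' : α) : β s = some s' → End s' → End s

/-- the total extension of `β` -/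
def gam (s : α) : α := (β s).getD s

variable {β side}

theorem end_step {s s' : α} (h : β s = some s') : End β side s ↔ End β side s' := by
  constructor
  · intro h1
    cases h1 with
    | stop _ h2 _ => rw [h] at h2; exact absurd h2 (by simp)
    | step _ t h2 h3 =>
      rw [h] at h2
      cases h2
      exact h3
  · exact fun h1 => End.step s s' h h1

theorem end_stop {s : α} (h : β s = none) : End β side s ↔ side s = true := by
  constructor
  · intro h1
    cases h1 with
    | stop _ _ h2 => exact h2
    | step _ t h2 h3 => rw [h] at h2; exact absurd h2 (by simp)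
  · exact fun h1 => End.stop s h h1

theorem gam_of {s s' : α} (h : β s = some s') : gam β s = s' := by simp [gam, h]

theorem not_end {s : α} (h : ∀ i, β ((gam β)^[i] s) ≠ none) : ¬ End β side s := by
  intro h1
  induction h1 with
  | stop s h2 _ => exact h 0 h2
  | step s s' h2 _ ih =>
    refine ih fun i => ?_
    have := h (i + 1)
    rwa [Function.iterate_succ_apply, gam_of h2] at this

theorem end_iter {s : α} (n : ℕ) (h : ∀ i < n, β ((gam β)^[i] s) ≠ none) :
    End β side s ↔ End β side ((gam β)^[n] s) := by
  induction n with
  | zero => rfl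
  | succ n ih =>
    rw [ih fun i hi => h i (by omega), Function.iterate_succ_apply']
    obtain ⟨t, ht⟩ := Option.ne_none_iff_exists'.1 (h n (by omega))
    rw [gam_of ht]
    exact end_step ht

theorem exists_stop (hinj : ∀ s s' t, β s = some t → β s' = some t → s = s') (s : α)
    (hfin : (Set.range fun n => (gam β)^[n] s).Finite) :
    ∃ n, β ((gam β)^[n] s) = none ∨ (0 < n ∧ (gam β)^[n] s = s) := by
  by_contra hcon
  push Not at hcon
  have hni : ¬ Function.Injective (fun n => (gam β)^[n] s) := fun hi =>
    Set.infinite_range_of_injective hi hfin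
  rw [Function.Injective] at hni
  push Not at hni
  obtain ⟨i, j, hij, hne⟩ := hni
  wlog hlt : i < j generalizing i j with H
  · exact H j i hij.symm (Ne.symm hne) (by omega)
  have key : ∀ i j, i < j → (gam β)^[i] s = (gam β)^[j] s → (gam β)^[j - i] s = s := by
    intro i
    induction i with
    | zero => intro j _ h; exact h.symm
    | succ i ih =>
      intro j hj h
      obtain ⟨j, rfl⟩ : ∃ k, j = k + 1 := ⟨j - 1, by omega⟩
      rw [Function.iterate_succ_apply', Function.iterate_succ_apply'] at h
      obtain ⟨t, ht⟩ := Option.ne_none_iff_exists'.1 (hcon i).1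
      obtain ⟨u, hu⟩ := Option.ne_none_iff_exists'.1 (hcon j).1
      rw [gam_of ht, gam_of hu] at h
      rw [h] at ht
      have := ih j (by omega) (hinj _ _ _ ht hu)
      rwa [show j + 1 - (i + 1) = j - i by omega]
  exact (hcon (j - i)).2 (by omega) (key i j hlt hij)

/-- the state of the search: start, current point, has it moved? -/
def G (p : α × α × Bool) : α × α × Bool := (p.1, gam β p.2.1, true)

variable (β) in
/-- stop when the chain ends or when it is back at the start -/
def stopT [DecidableEq α] (p : α × α × Bool) : Bool :=
  (β p.2.1).isNone || (p.2.2 && decide (p.2.1 = p.1))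

variable (β side) in
/-- accept if the chain ends on the right side -/
def accT (p : α × α × Bool) : Bool := (β p.2.1).isNone && side p.2.1

theorem G_iter (s : α) (n : ℕ) :
    (G (β := β))^[n] (s, s, false) = (s, (gam β)^[n] s, decide (0 < n)) := by
  induction n with
  | zero => simp
  | succ n ih =>
    rw [Function.iterate_succ_apply', ih, Function.iterate_succ_apply']
    simp [G]

theorem run_end [DecidableEq α] (hinj : ∀ s s' t, β s = some t → β s' = some t → s = s') (s : α)
    (hfin : (Set.range fun n => (gam β)^[n] s).Finite) :
    ∃ n, stopT β ((G (β := β))^[n] (s, s, false)) = true ∧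
      (∀ i < n, stopT β ((G (β := β))^[i] (s, s, false)) = false) ∧
      (End β side s ↔ accT β side ((G (β := β))^[n] (s, s, false)) = true) := by
  classical
  have hex := exists_stop hinj s hfin
  have hst : ∀ n, stopT β ((G (β := β))^[n] (s, s, false)) = true ↔
      (β ((gam β)^[n] s) = none ∨ (0 < n ∧ (gam β)^[n] s = s)) := by
    intro n
    rw [G_iter]
    simp [stopT]
  obtain ⟨n, hn, hmin⟩ : ∃ n, (β ((gam β)^[n] s) = none ∨ (0 < n ∧ (gam β)^[n] s = s)) ∧
      ∀ i < n, ¬ (β ((gam β)^[i] s) = none ∨ (0 < i ∧ (gam β)^[i] s = s)) :=
    ⟨Nat.find hex, Nat.find_spec hex, fun i hi => Nat.find_min hex hi⟩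
  refine ⟨n, (hst n).2 hn, fun i hi => ?_, ?_⟩
  · have := hmin i hi
    rw [← hst i] at this
    simpa using this
  · rw [G_iter]
    have hne : ∀ i < n, β ((gam β)^[i] s) ≠ none := fun i hi h => hmin i hi (Or.inl h)
    by_cases h0 : β ((gam β)^[n] s) = none
    · rw [end_iter n hne, end_stop h0]
      simp [accT, h0]
    · have hb : 0 < n ∧ (gam β)^[n] s = s := hn.resolve_left h0
      have hall : ∀ i, β ((gam β)^[i] s) ≠ none := by
        intro i
        induction i using Nat.strong_induction_on with
        | _ i ih =>
          by_cases hi : i < n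
          · exact hne i hi
          · have e : (gam β)^[i] s = (gam β)^[i - n] s := by
              conv_lhs => rw [show i = (i - n) + n by omega, Function.iterate_add_apply, hb.2]
            rw [e]
            exact ih _ (by omega)
      have : accT β side (s, (gam β)^[n] s, decide (0 < n)) = false := by
        have h1 : (β ((gam β)^[n] s)).isNone = false := by
          rw [Option.isNone_eq_false_iff, Option.isSome_iff_ne_none]
          exact h0
        simp [accT, h1]
      rw [this]
      simpa using not_end hall

end Orbit

section Poly

variable {α : Type} [TEnc α] [DecidableEq α] {β : α → Option α} {side : α → Bool}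

theorem poly_isNone {γ : Type} [TEnc γ] {o : γ → Option α} (ho : Poly o) :
    Poly (fun a => (o a).isNone) :=
  (Poly.not (Poly.isSome ho)).congr fun a => by cases o a <;> rfl

theorem poly_gam (hβ : Poly β) : Poly (gam β) :=
  (Poly.optCases (h := fun _ t => t) hβ Poly.id (Poly.snd Poly.id)).congr fun a => by
    unfold gam
    cases β a <;> rfl

/-- The chains of a polynomial-time partial injection whose points stay short can be followed to
their end in polynomial space. -/
theorem inPSPACE_end (hβ : Poly β) (hside : Poly side)
    (hinj : ∀ s s' t, β s = some t → β s' = some t → s = s') (init : List Bool → α)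
    (hinit : Poly init) (q : Polynomial ℕ)
    (hq : ∀ x n, sz ((gam β)^[n] (init x)) ≤ q.eval x.length) :
    InPSPACE {x | End β side (init x)} := by
  refine inPSPACE_iter (α := α × α × Bool) (G := G (β := β)) (stop := stopT β)
    (acc := accT β side) (init := fun x => (init x, init x, false)) ?_ ?_ ?_ ?_ (2 * q + 5) ?_
  · exact Poly.pair (Poly.fst Poly.id) (Poly.pair ((poly_gam hβ).comp
      (Poly.fst (Poly.snd Poly.id))) (Poly.const true))
  · exact Poly.or (poly_isNone (hβ.comp (Poly.fst (Poly.snd Poly.id))))
      (Poly.and (Poly.snd (Poly.snd Poly.id)) (Poly.decide_eq (Poly.fst (Poly.snd Poly.id))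
        (Poly.fst Poly.id)))
  · exact Poly.and (poly_isNone (hβ.comp (Poly.fst (Poly.snd Poly.id))))
      (hside.comp (Poly.fst (Poly.snd Poly.id)))
  · exact Poly.pair hinit (Poly.pair hinit (Poly.const false))
  · intro x
    have hfin : (Set.range fun n => (gam β)^[n] (init x)).Finite := by
      refine (finite_sz (α := α) (q.eval x.length)).subset ?_
      rintro _ ⟨n, rfl⟩
      exact hq x n
    obtain ⟨n, h1, h2, h3⟩ := run_end (side := side) hinj (init x) hfin
    refine ⟨n, h1, h2, fun i _ => ?_, h3⟩
    have h4 := hq x 0
    simp only [Function.iterate_zero, id_eq] at h4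
    have h5 := hq x i
    have h6 := sz_bool_le (decide (0 < i))
    rw [G_iter]
    simp only [sz_pair, Polynomial.eval_add, Polynomial.eval_mul, Polynomial.eval_ofNat]
    omega

end Poly

end Pool.Agent.NPC.PIso.H58
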