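import Pool.Agent.Helper58P.Inv

/-!
# Reductions which lengthen by at most two letters are enough for `P = PSPACE`

This repeats the proof of `PermProblem.main` of the library for the pair of maps `fA`, `gB` which belongs
to a permutation problem.
-/

set_option autoImplicit false

namespace Pool.Agent.NPC.PIso.H58

open PermProblem

/-- The values are longer than the arguments by at most two letters. -/
def Plus2 (f : List Bool → List Bool) : Prop := ∀ x, (f x).length ≤ x.length + 2

theorem fA_plus2 (R : List Bool → Bool) : Plus2 (fA R) := by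
  intro w
  match w with
  | [] => simp [fA]
  | [true] => simp [fA]
  | true :: true :: u => simp [fA]
  | true :: false :: u => simp [fA]
  | false :: d => cases h : R d <;> simp [fA, h]

theorem gB_plus2 (Q : List Bool → Bool) (Ti : List Bool → List Bool)
    (hTi : ∀ d, (Ti d).length = d.length) : Plus2 (gB Q Ti) := by
  intro w
  match w with
  | [] => simp [gB]
  | [true] => simp [gB]
  | true :: true :: u => simp [gB]
  | true :: false :: u => simp [gB]
  | false :: d => cases h : Q d <;> simp [gB, h, hTi]

/-- The statement of the question for reductions which lengthen by at most two letters. -/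
def Q1s : Prop := ∀ A B : Set (List Bool),
  (∃ f, IsReduction A B f ∧ Function.Injective f ∧ LengthNondecreasing f ∧ PInvertible f ∧
    Plus2 f) →
  (∃ g, IsReduction B A g ∧ Function.Injective g ∧ LengthNondecreasing g ∧ PInvertible g ∧
    Plus2 g) →
  PIsomorphic A B

theorem main_strong {L : Set (List Bool)} (D : PermProblem L)
    (hQ : ∀ A B : Set (List Bool), (∀ x, x ∈ A ↔ fA D.R x ∈ B) → (∀ y, y ∈ B ↔ gB D.Q D.Ti y ∈ A) →
      PIsomorphic A B) : InP L := by
  classical
  obtain ⟨A, B, hA, hB, hiso⟩ := exists_sets (fA D.R) (gB D.Q D.Ti)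
    {f : List Bool → List Bool | PolyTime f} countable_polyTime
  obtain ⟨h, h', hp, hp', h1, h2, hh⟩ := hQ A B hA hB
  obtain ⟨F, hF⟩ := hiso h hp hh
  have hfin := preserved F hF D.P D.satP D.disjP
  have hP : Poly h := poly_iff.2 hp
  have hP' : Poly h' := poly_iff.2 hp'
  obtain ⟨q, hq⟩ := length_bound hP
  obtain ⟨q', hq'⟩ := length_bound hP'
  let K : List Bool → ℕ := fun x => ((q + q' + 1).comp (Polynomial.X + 1)).eval (D.start x).length
  have hK : UPoly K := UPoly.eval (UPoly.length D.poly_start) _
  have hKq : ∀ x, q.eval (1 + (D.start x).length) < K x ∧ q'.eval (1 + (D.start x).length) < K x := by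
    intro x
    simp only [K, Polynomial.eval_comp, Polynomial.eval_add, Polynomial.eval_X,
      Polynomial.eval_one]
    rw [add_comm 1 (D.start x).length]
    omega
  let dL : List Bool → Bool := fun x => decide
    (((List.range (K x)).filter (fun k => !(D.test h K x k))).length =
      ((List.range (K x)).filter (fun k => !(D.test h' K x k))).length)
  have hdL : Poly dL := by
    refine Poly.decide_eq (Poly.length ?_) (Poly.length ?_)
    · exact Poly.filter (p := fun x k => !(D.test h K x k)) hK.range
        (Poly.not (D.poly_test hP hK))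
    · exact Poly.filter (p := fun x k => !(D.test h' K x k)) hK.range
        (Poly.not (D.poly_test hP' hK))
  have hgood : ∀ x, (∀ w, (D.P x (Sum.inl w) ↔ D.P x (Sum.inr (h w)))) →
      (x ∈ L ↔ dL x = true) := by
    intro x hx
    have hc := count (PIso.tl (D.start x)) (fun k k' hk => (tl_inj hk).2) (D.PA x) (D.PB x)
      (fun k hk => D.tl_not_PB x k (D.PA_sub_PB hk)) (D.tl_not_PB x) h h' h1 h2 hx (K x)
      (by
        intro k hk hmem
        rw [mem_PB] at hmem
        obtain ⟨i, _, hi⟩ := hmem
        have h3 : h' (false :: D.T^[i] (D.start x)) = PIso.tl (D.start x) k := by rw [← hi, h1]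
        have h4 := hq' (false :: D.T^[i] (D.start x))
        rw [h3, tl_length, List.length_cons, D.len_iter, add_comm (D.start x).length 1] at h4
        have := (hKq x).2
        omega)
      (by
        intro k hk hmem
        have hmem' := D.PA_sub_PB hmem
        rw [mem_PB] at hmem'
        obtain ⟨i, _, hi⟩ := hmem'
        have h3 : h (false :: D.T^[i] (D.start x)) = PIso.tl (D.start x) k := by rw [← hi, h2]
        have h4 := hq (false :: D.T^[i] (D.start x))
        rw [h3, tl_length, List.length_cons, D.len_iter, add_comm (D.start x).length 1] at h4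
        have := (hKq x).1
        omega)
      (fun k => D.test h K x k = true) (fun k => D.test h' K x k = true)
      (fun k hk => D.test_iff h K x k hk) (fun k hk => D.test_iff h' K x k hk)
    rw [card_filter_range, card_filter_range] at hc
    simp only [dL, decide_eq_true_iff]
    by_cases hxL : x ∈ L
    · rw [D.card_PA_acc x hxL] at hc
      exact ⟨fun _ => by omega, fun _ => hxL⟩
    · have := D.card_PA_rej x hxL
      exact ⟨fun h => absurd h hxL, fun h => by omega⟩
  let bad : List (List Bool) := hfin.toFinset.toList
  let badL : List (List Bool) := bad.filter (fun x => decide (x ∈ L))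
  refine ⟨fun x => [if x ∈ bad then decide (x ∈ badL) else dL x], ?_, fun x => ?_⟩
  · exact polyTime_of_poly (Poly.ite
      ((Poly.decide_mem Poly.id (Poly.const bad)).congr fun a => decide_eq_decide.2 Iff.rfl)
      ((Poly.decide_mem Poly.id (Poly.const badL)).congr fun a => decide_eq_decide.2 Iff.rfl) hdL)
  · by_cases hx : x ∈ bad
    · simp only [hx, if_true, List.cons.injEq, and_true, decide_eq_true_iff, badL,
        List.mem_filter, true_and]
    · have hx' : ∀ w, (D.P x (Sum.inl w) ↔ D.P x (Sum.inr (h w))) := by
        by_contra hcon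
        apply hx
        simp only [bad, Finset.mem_toList, Set.Finite.mem_toFinset]
        exact hcon
      rw [hgood x hx']
      simp [hx]

theorem collapse_of_q1s (h : Q1s) : Collapse := by
  intro L hL
  obtain ⟨S⟩ := exists_sys hL
  let D := S.toPerm
  refine main_strong D fun A B hA hB => h A B
    ⟨fA D.R, ⟨poly_iff.1 (poly_fA D.poly_R), hA⟩, fA_injective _, fA_length _, D.fA_pinv,
      fA_plus2 _⟩
    ⟨gB D.Q D.Ti, ⟨poly_iff.1 (poly_gB D.poly_Q D.poly_Ti), hB⟩, gB_injective _ D.T _ D.T_Ti,
      gB_length _ _ D.len, D.gB_pinv, gB_plus2 _ _ D.len⟩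

theorem q1s_of_q1w (h : Q1w) : Q1s := by
  rintro A B ⟨f, hf, fi, fl, _⟩ ⟨g, hg, gi, gl, _⟩
  exact h A B ⟨f, hf, fi, fl⟩ ⟨g, hg, gi, gl⟩

/-- One of the two `p`-invertible length-nondecreasing reductions is length increasing. -/
def Q1i : Prop := ∀ A B : Set (List Bool), ∀ f g : List Bool → List Bool,
  IsReduction A B f → Function.Injective f → LengthNondecreasing f → PInvertible f →
  IsReduction B A g → Function.Injective g → LengthNondecreasing g → PInvertible g →
  ((∀ x, x.length < (f x).length) ∨ (∀ x, x.length < (g x).length)) → PIsomorphic A B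

theorem q1i : Q1i := by
  rintro A B f g ⟨hf, hA⟩ _ fl ⟨_, rf, prf, h1, h2⟩ ⟨hg, hB⟩ _ gl ⟨_, rg, prg, h3, h4⟩ h
  exact cb_increasing ⟨poly_iff.2 hf, poly_iff.2 hg, poly_iff.2 prf, poly_iff.2 prg, h1, h3, h2, h4,
    fl, gl⟩ h A B hA hB

end Pool.Agent.NPC.PIso.H58
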